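import Mathlib

/-!
# Closure points in well-orders of regular type

`Reg κ X` says that the initial segments of `X` have size at most `κ` and that families of size
at most `κ` are bounded (as in the well-order of type `κ⁺`).
-/

open Cardinal Set

namespace Pool.Agent.Lib.IncompactB

/-- The initial segments have size at most `κ`, and families of size at most `κ` are bounded. -/
structure Reg (κ : Cardinal.{0}) (X : Type) [LinearOrder X] : Prop where
  inf : ℵ₀ ≤ κ
  iic : ∀ x : X, #(Set.Iic x) ≤ κ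
  bdd : ∀ (ι : Type) (f : ι → X), #ι ≤ κ → ∃ b, ∀ j, f j < b

variable {κ : Cardinal.{0}} {X I : Type} [LinearOrder X] [LinearOrder I]

/-- A bound for the values on lists of finite sets from an initial segment. -/
theorem Reg.bound (hX : Reg κ X) (F : List (Finset X) → ℕ → X → X) :
    ∃ Φ : X → X, ∀ β t n ξ, (∀ s ∈ t, ∀ a ∈ s, a ≤ β) → ξ ≤ β → F t n ξ < Φ β := by
  classical
  have h : ∀ β : X, ∃ b, ∀ t n ξ, (∀ s ∈ t, ∀ a ∈ s, a ≤ β) → ξ ≤ β → F t n ξ < b := by
    intro β
    obtain ⟨b, hb⟩ := hX.bdd (List (Finset (Set.Iic β)) × ℕ × Set.Iic β)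
      (fun q => F (q.1.map (fun s => s.image Subtype.val)) q.2.1 q.2.2) (by
        rw [Cardinal.mk_prod, Cardinal.mk_prod]
        simp only [Cardinal.lift_id, Cardinal.mk_nat]
        have h0 : #(Finset (Set.Iic β)) ≤ κ :=
          (Cardinal.mk_le_of_surjective (List.toFinset_surjective (α := Set.Iic β))).trans
            ((Cardinal.mk_list_le_max _).trans (max_le hX.inf (hX.iic β)))
        have h1 : #(List (Finset (Set.Iic β))) ≤ κ :=
          (Cardinal.mk_list_le_max _).trans (max_le hX.inf h0)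
        refine Cardinal.mul_le_of_le hX.inf h1 (Cardinal.mul_le_of_le hX.inf hX.inf (hX.iic β)))
    refine ⟨b, fun t n ξ ht hξ => ?_⟩
    have h2 := hb (t.map (fun s => s.subtype (· ∈ Set.Iic β)), n, ⟨ξ, hξ⟩)
    have h3 : (t.map (fun s => s.subtype (· ∈ Set.Iic β))).map
        (fun s => s.image Subtype.val) = t := by
      rw [List.map_map]
      conv_rhs => rw [← List.map_id t]
      rw [List.map_inj_left]
      intro s hs
      ext a
      simp only [Function.comp_apply, Finset.mem_image, Finset.mem_subtype, Subtype.exists,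
        exists_and_left, exists_prop, id_eq]
      constructor
      · rintro ⟨a', h1, h2, rfl⟩
        exact h1
      · intro ha
        exact ⟨a, ha, ht s hs a ha, rfl⟩
    simp only [h3] at h2
    exact h2
  choose Φ hΦ using h
  exact ⟨Φ, hΦ⟩

/-- An increasing sequence closed under a function. -/
theorem Reg.seq (hX : Reg κ X) [WellFoundedLT I] (hI : #I ≤ κ) (Φ : X → X) :
    ∃ h : I → X, ∀ i j, i < j → h i < h j ∧ Φ (h i) < h j := by
  have step : ∀ (j : I) (f : ∀ i, i < j → X), ∃ b, ∀ i (hi : i < j), f i hi < b ∧ Φ (f i hi) < b := by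
    intro j f
    have hc : #(Set.Iio j) ≤ κ := (Cardinal.mk_le_of_injective Subtype.val_injective).trans hI
    obtain ⟨b, hb⟩ := hX.bdd (Set.Iio j) (fun i => f i.1 i.2) hc
    obtain ⟨b', hb'⟩ := hX.bdd (Set.Iio j) (fun i => Φ (f i.1 i.2)) hc
    exact ⟨max b b', fun i hi => ⟨lt_max_of_lt_left (hb ⟨i, hi⟩), lt_max_of_lt_right (hb' ⟨i, hi⟩)⟩⟩
  choose G hG using step
  let wf : WellFounded (fun i j : I => i < j) := wellFounded_lt
  let h : I → X := wf.fix G
  have hh : ∀ j, h j = G j (fun i _ => h i) := fun j => wf.fix_eq G j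
  refine ⟨h, fun i j hij => ?_⟩
  rw [hh j]
  exact hG j (fun i _ => h i) i hij

/-- Closure points of a function on lists of finite sets, of the cofinality of `I`. -/
theorem Reg.closure_pt (hX : Reg κ X) [WellFoundedLT I] [WellFoundedLT X] [Nonempty I] [NoMaxOrder I]
    (hI : #I ≤ κ) (F : List (Finset X) → ℕ → X → X) :
    ∃ (h : I → X) (δ : X), StrictMono h ∧ (∀ j, h j < δ) ∧ (∀ ξ < δ, ∃ j, ξ < h j) ∧
      ∀ t n ξ, (∀ s ∈ t, ∀ a ∈ s, a < δ) → ξ < δ → F t n ξ < δ := by
  obtain ⟨Φ, hΦ⟩ := hX.bound F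
  obtain ⟨h, hh⟩ := hX.seq hI Φ
  have hbd : ∃ b, ∀ j, h j < b := hX.bdd I h hI
  let wf : WellFounded (fun i j : X => i < j) := wellFounded_lt
  let δ := wf.min {b | ∀ j, h j < b} hbd
  have h1 : ∀ j, h j < δ := wf.min_mem {b | ∀ j, h j < b} hbd
  have h2 : ∀ ξ < δ, ∃ j, ξ < h j := by
    intro ξ hξ
    by_contra hcon
    push Not at hcon
    refine wf.not_lt_min {b | ∀ j, h j < b} ?_ hξ
    intro j
    obtain ⟨j', hj'⟩ := exists_gt j
    exact lt_of_lt_of_le (hh j j' hj').1 (hcon j')
  have hmono : StrictMono h := fun i j hij => (hh i j hij).1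
  refine ⟨h, δ, hmono, h1, h2, ?_⟩
  have h3 : ∀ s : Finset X, (∀ a ∈ s, a < δ) → ∃ j, ∀ a ∈ s, a < h j := by
    classical
    intro s
    induction s using Finset.induction with
    | empty => exact fun _ => ⟨Classical.arbitrary I, fun a ha => by simp at ha⟩
    | insert b s hb ih =>
      intro hs
      obtain ⟨j, hj⟩ := ih (fun a ha => hs a (Finset.mem_insert_of_mem ha))
      obtain ⟨j', hj'⟩ := h2 b (hs b (Finset.mem_insert_self _ _))
      refine ⟨max j j', fun a ha => ?_⟩
      rcases Finset.mem_insert.1 ha with rfl | ha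
      · exact lt_of_lt_of_le hj' (hmono.monotone (le_max_right _ _))
      · exact lt_of_lt_of_le (hj a ha) (hmono.monotone (le_max_left _ _))
  have h4 : ∀ t : List (Finset X), (∀ s ∈ t, ∀ a ∈ s, a < δ) → ∃ j, ∀ s ∈ t, ∀ a ∈ s, a < h j := by
    intro t
    induction t with
    | nil => exact fun _ => ⟨Classical.arbitrary I, fun a ha => by simp at ha⟩
    | cons b t ih =>
      intro ht
      obtain ⟨j, hj⟩ := ih (fun a ha => ht a (List.mem_cons_of_mem _ ha))
      obtain ⟨j', hj'⟩ := h3 b (ht b List.mem_cons_self)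
      refine ⟨max j j', fun s hs a ha => ?_⟩
      rcases List.mem_cons.1 hs with rfl | hs
      · exact lt_of_lt_of_le (hj' a ha) (hmono.monotone (le_max_right _ _))
      · exact lt_of_lt_of_le (hj s hs a ha) (hmono.monotone (le_max_left _ _))
  intro t n ξ ht hξ
  obtain ⟨j, hj⟩ := h4 t ht
  obtain ⟨j', hj'⟩ := h2 ξ hξ
  obtain ⟨k, hk⟩ := exists_gt (max j j')
  have h5 : F t n ξ < Φ (h (max j j')) := by
    refine hΦ _ t n ξ (fun s hs a ha => ?_) ?_
    · exact (lt_of_lt_of_le (hj s hs a ha) (hmono.monotone (le_max_left _ _))).le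
    · exact (lt_of_lt_of_le hj' (hmono.monotone (le_max_right _ _))).le
  exact (h5.trans (hh _ _ hk).2).trans (h1 k)

/-- The first `n` values of a sequence. -/
def res {α : Type*} (x : ℕ → α) (n : ℕ) : List α := (List.range n).map x

theorem res_length {α : Type*} (x : ℕ → α) (n : ℕ) : (res x n).length = n := by
  simp [res]

theorem res_succ {α : Type*} (x : ℕ → α) (n : ℕ) : res x (n + 1) = res x n ++ [x n] := by
  simp [res, List.range_succ]

theorem mem_res {α : Type*} {x : ℕ → α} {n : ℕ} {b : α} : b ∈ res x n ↔ ∃ m < n, x m = b := by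
  simp [res]

theorem res_eq {α : Type*} {x y : ℕ → α} {n : ℕ} : res x n = res y n ↔ ∀ m < n, x m = y m := by
  unfold res
  rw [List.map_inj_left]
  simp

theorem res_eq' {α : Type*} {x y : ℕ → α} {n m : ℕ} (h : res x n = res y m) :
    n = m ∧ ∀ k < m, x k = y k := by
  have h1 : n = m := by
    have := congrArg List.length h
    rwa [res_length, res_length] at this
  subst h1
  exact ⟨rfl, res_eq.1 h⟩

theorem res_getD {α : Type*} (x : ℕ → α) (n m : ℕ) (d : α) (h : m < n) :
    (res x n).getD m d = x m := by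
  have h1 : m < (res x n).length := by rwa [res_length]
  rw [List.getD_eq_getElem _ _ h1]
  simp [res]

end Pool.Agent.Lib.IncompactB
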