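import Pool.Agent.Lib.IncompactB.Uncountable

/-!
# Hitting families from unbounded families of functions
-/

open Cardinal Set

namespace Pool.Agent.Lib.IncompactB

/-- The possible continuations by `j` terms of the finite sequence `t`, each next term being smaller
than the value of `b₀` at the sequence before. -/
def Ext (b₀ : List ℕ → ℕ) (t : List ℕ) : ℕ → Finset (List ℕ)
  | 0 => {t}
  | j + 1 => (Ext b₀ t j).biUnion (fun s => (Finset.range (b₀ s)).image (fun x => s ++ [x]))

theorem res_mem_Ext (b₀ : List ℕ → ℕ) (d : ℕ → ℕ) (k₀ : ℕ) (h : ∀ k ≥ k₀, d k < b₀ (res d k))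
    (j : ℕ) : res d (k₀ + j) ∈ Ext b₀ (res d k₀) j := by
  induction j with
  | zero => simp [Ext]
  | succ j ih =>
    rw [Ext, Finset.mem_biUnion]
    refine ⟨_, ih, Finset.mem_image.2 ⟨d (k₀ + j), ?_, ?_⟩⟩
    · exact Finset.mem_range.2 (h _ (Nat.le_add_right _ _))
    · rw [← add_assoc, res_succ]

/-- A bound depending on the whole history can be replaced by a bound. -/
theorem exists_bound (b₀ : List ℕ → ℕ) : ∃ b : ℕ → ℕ, ∀ d : ℕ → ℕ,
    (∀ᶠ k in Filter.atTop, d k < b₀ (res d k)) → ∀ᶠ k in Filter.atTop, d k ≤ b k := by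
  let β : List ℕ → ℕ → ℕ := fun t j => (Ext b₀ t j).sup b₀
  refine ⟨fun k => (Finset.range (k + 1)).sup (fun m =>
    (Encodable.decode (α := List ℕ) m).elim 0 (fun t => β t (k - t.length))), fun d hd => ?_⟩
  obtain ⟨k₀, hk₀⟩ := Filter.eventually_atTop.1 hd
  refine Filter.eventually_atTop.2 ⟨max k₀ (Encodable.encode (res d k₀)), fun k hk => ?_⟩
  have h1 : k₀ ≤ k := (le_max_left _ _).trans hk
  have h2 : Encodable.encode (res d k₀) ≤ k := (le_max_right _ _).trans hk
  have h3 : d k < b₀ (res d k) := hk₀ k h1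
  have h4 : b₀ (res d k) ≤ β (res d k₀) (k - k₀) := by
    have h5 := res_mem_Ext b₀ d k₀ hk₀ (k - k₀)
    rw [Nat.add_sub_cancel' h1] at h5
    exact Finset.le_sup (f := b₀) h5
  have h5 : β (res d k₀) (k - k₀) ≤ (Finset.range (k + 1)).sup (fun m =>
      (Encodable.decode (α := List ℕ) m).elim 0 (fun t => β t (k - t.length))) := by
    have h6 := Finset.le_sup (f := fun m => (Encodable.decode (α := List ℕ) m).elim 0
      (fun t => β t (k - t.length))) (Finset.mem_range.2 (Nat.lt_succ_of_le h2))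
    simp only [Encodable.encodek, Option.elim_some, res_length] at h6
    exact h6
  exact (h3.trans_le (h4.trans h5)).le

variable {Ω : Type} [LinearOrder Ω]

/-- The sequence of finite sets given by an enumeration `e` and a function `d`. -/
def code (e : ℕ → Ω) (d : ℕ → ℕ) : ℕ → Finset Ω := fun k => (Finset.range (d k + 1)).image e

/-- The family of the sequences `code (e i) d`, for `d ∈ D`. -/
def fam (e : Ω → ℕ → Ω) (D : Set (ℕ → ℕ)) : Set (ℕ → Finset Ω) :=
  Set.range (fun p : Ω × D => code (e p.1) p.2.1)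

/-- Enumerations of the initial segments. -/
theorem exists_enums (hΩ : Reg ℵ₀ Ω) : ∃ e : Ω → ℕ → Ω,
    ∀ i, (∃ j, j < i) → (∀ n, e i n < i) ∧ ∀ j < i, ∃ n, e i n = j := by
  classical
  have h4 : ∀ i : Ω, ∃ e : ℕ → Ω, (∃ j, j < i) → (∀ n, e n < i) ∧ ∀ j < i, ∃ n, e n = j := by
    intro i
    by_cases hi : ∃ j, j < i
    · have hc : (Set.Iio i).Countable :=
        (Cardinal.le_aleph0_iff_set_countable.1 (hΩ.iic i)).mono Set.Iio_subset_Iic_self
      obtain ⟨e, he⟩ := hc.exists_eq_range hi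
      refine ⟨e, fun _ => ⟨fun n => ?_, fun j hj => ?_⟩⟩
      · have : e n ∈ Set.Iio i := he ▸ Set.mem_range_self n
        exact this
      · have : j ∈ Set.range e := he ▸ hj
        exact this
    · exact ⟨fun _ => i, fun h' => absurd h' hi⟩
  choose e he using h4
  exact ⟨e, he⟩

/-- **Hitting.** If `D` is unbounded, then `fam e D` is hitting. -/
theorem hitting_of_unbounded [WellFoundedLT Ω] (hΩ : Reg ℵ₀ Ω) (e : Ω → ℕ → Ω)
    (he : ∀ i, (∃ j, j < i) → (∀ n, e i n < i) ∧ ∀ j < i, ∃ n, e i n = j) (D : Set (ℕ → ℕ))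
    (hD : ¬ ∃ b : ℕ → ℕ, ∀ d ∈ D, ∀ᶠ k in Filter.atTop, d k ≤ b k) : Hitting (fam e D) := by
  classical
  intro E
  -- a closure point
  obtain ⟨h, i, -, hi, -, hcl⟩ := hΩ.closure_pt (I := ℕ) (by simp)
    (fun t _ ξ => (insert ξ (E t)).max' (Finset.insert_nonempty _ _))
  have hine : ∃ j, j < i := ⟨_, hi 0⟩
  obtain ⟨he1, he2⟩ := he i hine
  have hE : ∀ t : List (Finset Ω), (∀ s ∈ t, ∀ a ∈ s, a < i) → ∀ a ∈ E t, a < i := by
    intro t ht a ha
    exact (Finset.le_max' _ _ (Finset.mem_insert_of_mem ha)).trans_lt (hcl t 0 _ ht (hi 0))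
  -- the bounds
  have hb₀ : ∀ t : List ℕ, ∃ n : ℕ, ∀ n' ≥ n,
      E (t.map (fun m => (Finset.range (m + 1)).image (e i))) ⊆
        (Finset.range (n' + 1)).image (e i) := by
    intro t
    have h1 : ∀ a ∈ E (t.map (fun m => (Finset.range (m + 1)).image (e i))), ∃ n, e i n = a := by
      intro a ha
      refine he2 a (hE _ (fun s hs a ha => ?_) a ha)
      obtain ⟨m, -, rfl⟩ := List.mem_map.1 hs
      obtain ⟨n, -, rfl⟩ := Finset.mem_image.1 ha
      exact he1 n
    choose! n hn using h1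
    refine ⟨(E (t.map (fun m => (Finset.range (m + 1)).image (e i)))).sup n, fun n' hn' a ha => ?_⟩
    refine Finset.mem_image.2 ⟨n a, ?_, hn a ha⟩
    rw [Finset.mem_range]
    have := Finset.le_sup (f := n) ha
    omega
  choose b₀ hb₀ using hb₀
  obtain ⟨b, hb⟩ := exists_bound b₀
  by_contra hcon
  push Not at hcon
  refine hD ⟨b, fun d hd => hb d ?_⟩
  have h1 := hcon (code (e i) d) ⟨(i, ⟨d, hd⟩), rfl⟩
  filter_upwards [h1] with k hk
  by_contra hcon2
  refine hk ?_
  have h2 : res (code (e i) d) k = (res d k).map (fun m => (Finset.range (m + 1)).image (e i)) := by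
    unfold res code
    rw [List.map_map]
    rfl
  rw [h2]
  exact hb₀ (res d k) (d k) (not_lt.1 hcon2)

end Pool.Agent.Lib.IncompactB
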