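import Pool.Agent.Lib.IncompactB.Basic

/-!
# The graph on the triples `(δ, i, F)`: bounded parts are countably chromatic

`W` is a well-order like `ω₂` and `Ω` a well-order like `ω₁`.
A vertex is a triple `(δ, i, F)` with `δ ∈ W` of cofinality `ω₁`, `i ∈ Ω` and `F : ℕ → Finset W` a
sequence of nonempty finite subsets of `δ`, each of them above the previous ones, whose union passes
the points `h δ j`, `j < i`, of a fixed ladder of `δ`.

The vertices `v = (δ, i, F)` and `w = (δ', i', F')` are joined when `i' < i`, `δ` belongs to the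
union of the `F' k`, and for some `k` the sequences `F`, `F'` agree below `k` and `F k` contains all
points of `F' m` below `δ`, for all `m ≥ k`.
-/

open Cardinal Set

namespace Pool.Agent.Lib.IncompactB

/-- A triple `(δ, i, F)`. -/
structure Vx (W Ω : Type) where
  δ : W
  i : Ω
  F : ℕ → Finset W

variable {W Ω : Type} [LinearOrder W] [LinearOrder Ω]

/-- The directed edges. -/
def Edge (v w : Vx W Ω) : Prop :=
  w.i < v.i ∧ (∃ k', v.δ ∈ w.F k') ∧
    ∃ k, (∀ m < k, v.F m = w.F m) ∧ ∀ m, k ≤ m → ∀ p ∈ w.F m, p < v.δ → p ∈ v.F k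

/-- `h` is a ladder of `δ`. -/
def Ladder (δ : W) (h : Ω → W) : Prop :=
  StrictMono h ∧ (∀ j, h j < δ) ∧ ∀ ξ < δ, ∃ j, ξ < h j

/-- The vertices of the graph, given ladders `h`. -/
structure Good (h : W → Ω → W) (v : Vx W Ω) : Prop where
  ladder : Ladder v.δ (h v.δ)
  ne : ∀ k, (v.F k).Nonempty
  mono : ∀ k k', k < k' → ∀ p ∈ v.F k, ∀ q ∈ v.F k', p < q
  lt : ∀ k, ∀ p ∈ v.F k, p < v.δ
  pass : ∀ j < v.i, ∃ k, ∃ p ∈ v.F k, h v.δ j < p

/-- The first `n` bits of a real. -/
def trunc (f : ℕ → Bool) (n : ℕ) : List Bool := (List.range n).map f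

theorem trunc_eq {f g : ℕ → Bool} {n : ℕ} : trunc f n = trunc g n ↔ ∀ m < n, f m = g m := by
  unfold trunc
  rw [List.map_inj_left]
  simp

/-- A finite set of reals can be separated from a real outside by finitely many bits. -/
theorem separate {α : Type*} (B : Set α) (hB : B.Finite) (r : α → ℕ → Bool) (f : ℕ → Bool)
    (hf : ∀ b ∈ B, r b ≠ f) : ∃ N, ∀ b ∈ B, trunc (r b) N ≠ trunc f N := by
  have h1 : ∀ b ∈ B, ∃ n, r b n ≠ f n := fun b hb => Function.ne_iff.1 (hf b hb)
  choose! n hn using h1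
  obtain ⟨N, hN⟩ := (hB.image n).bddAbove
  refine ⟨N + 1, fun b hb h => ?_⟩
  rw [trunc_eq] at h
  exact hn b hb (h _ (Nat.lt_succ_of_le (hN ⟨b, hb, rfl⟩)))

variable [WellFoundedLT Ω]

/-- The heart of the compactness proof: the case where all smaller bounds are done. -/
theorem compact_step (hΩ : Reg ℵ₀ Ω) (r₀ : Ω → ℕ → Bool) (hr₀ : Function.Injective r₀)
    (h : W → Ω → W) (δ₀ : W) (g : Ω → W) (hg : ∀ j, g j < δ₀) (hg' : ∀ ξ < δ₀, ∃ j, g j = ξ)
    (ih : ∀ γ < δ₀, ∃ c : Vx W Ω → ℕ, ∀ v w, Good h v → Good h w → v.δ ≤ γ → w.δ ≤ γ → Edge v w →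
      c v ≠ c w) :
    ∃ c : Vx W Ω → ℕ, ∀ v w, Good h v → Good h w → v.δ < δ₀ → w.δ < δ₀ → Edge v w → c v ≠ c w := by
  classical
  let wf : WellFounded (fun i j : Ω => i < j) := wellFounded_lt
  -- the block of `δ`
  have hl0 : ∀ δ : W, ∃ l : Ω, δ < δ₀ → (δ ≤ g l ∧ ∀ j < l, g j < δ) := by
    intro δ
    by_cases hδ : δ < δ₀
    · have hne : {l | δ ≤ g l}.Nonempty := by
        obtain ⟨j, hj⟩ := hg' δ hδ
        exact ⟨j, hj.ge⟩
      refine ⟨wf.min _ hne, fun _ => ⟨wf.min_mem _ hne, fun j hj => ?_⟩⟩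
      by_contra hcon
      exact wf.not_lt_min {l | δ ≤ g l} (not_lt.1 hcon) hj
    · obtain ⟨b, -⟩ := hΩ.bdd Empty (fun e => e.elim) (by simp)
      exact ⟨b, fun h => absurd h hδ⟩
  choose l hl using hl0
  have hl_mono : ∀ δ δ', δ ≤ δ' → δ' < δ₀ → l δ ≤ l δ' := by
    intro δ δ' h1 h2
    by_contra hcon
    have := (hl δ (lt_of_le_of_lt h1 h2)).2 _ (not_le.1 hcon)
    exact absurd (h1.trans (hl δ' h2).1) (not_le.2 this)
  -- the level `lam δ` of the ladder of `δ` which is above all `g j`, `j < l δ`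
  have hlam0 : ∀ δ : W, ∃ p : Ω, δ < δ₀ → Ladder δ (h δ) → ∀ j < l δ, g j < h δ p := by
    intro δ
    by_cases hδ : δ < δ₀ ∧ Ladder δ (h δ)
    · have h1 : ∀ j : Set.Iio (l δ), ∃ p, g j.1 < h δ p := fun j =>
        hδ.2.2.2 _ ((hl δ hδ.1).2 _ j.2)
      choose p hp using h1
      obtain ⟨b, hb⟩ := hΩ.bdd (Set.Iio (l δ)) p
        ((Cardinal.mk_le_mk_of_subset Set.Iio_subset_Iic_self).trans (hΩ.iic _))
      exact ⟨b, fun _ _ j hj => (hp ⟨j, hj⟩).trans (hδ.2.1 (hb ⟨j, hj⟩))⟩
    · obtain ⟨b, -⟩ := hΩ.bdd Empty (fun e => e.elim) (by simp)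
      exact ⟨b, fun h1 h2 => absurd ⟨h1, h2⟩ hδ⟩
  choose lam hlam using hlam0
  -- a bound for `lam` on a finite set
  have hS : ∀ s : Finset W, ∃ b : Ω, ∀ p ∈ s, lam p ≤ b := by
    intro s
    obtain ⟨b, hb⟩ := hΩ.bdd s (fun p => lam p.1) (Cardinal.mk_le_aleph0)
    exact ⟨b, fun p hp => (hb ⟨p, hp⟩).le⟩
  choose lamS hlamS using hS
  -- reals for the elements below `δ₀`
  have hneΩ : Nonempty Ω := ⟨l δ₀⟩
  choose! s hs using hg'
  let r : W → ℕ → Bool := fun ξ => r₀ (s ξ)
  have hr : ∀ ξ < δ₀, ∀ ξ' < δ₀, r ξ = r ξ' → ξ = ξ' := by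
    intro ξ hξ ξ' hξ' heq
    have := hr₀ heq
    rw [← hs ξ hξ, ← hs ξ' hξ', this]
  -- enumerations of the initial segments of `Ω`
  have he : ∀ p : Ω, ∃ e : Ω → ℕ, ∀ i ≤ p, ∀ i' ≤ p, e i = e i' → i = i' := by
    intro p
    have : (Set.Iic p).Countable := Cardinal.le_aleph0_iff_set_countable.1 (hΩ.iic p)
    obtain ⟨e, he⟩ := Set.countable_iff_exists_injOn.1 this
    exact ⟨e, fun i hi i' hi' heq => he hi hi' heq⟩
  choose e he using he
  choose! c hc using ih
  -- separating numbers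
  have hN : ∀ (B : Set W) (δ : W), ∃ N : ℕ, B.Finite → (∀ b ∈ B, b < δ) → δ < δ₀ →
      ∀ b ∈ B, trunc (r b) N ≠ trunc (r δ) N := by
    intro B δ
    by_cases hB : B.Finite ∧ (∀ b ∈ B, b < δ) ∧ δ < δ₀
    · obtain ⟨N, hN⟩ := separate B hB.1 r (r δ) (by
        intro b hb heq
        exact (hB.2.1 b hb).ne (hr b ((hB.2.1 b hb).trans hB.2.2) δ hB.2.2 heq))
      exact ⟨N, fun _ _ _ => hN⟩
    · exact ⟨0, fun h1 h2 h3 => absurd ⟨h1, h2, h3⟩ hB⟩
  choose N hN using hN
  let code : Set W → W → ℕ × List Bool := fun B δ => (N B δ, trunc (r δ) (N B δ))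
  -- the code takes care of the edges `v → w` with `v.δ` in the finite set of `w`
  have hcode : ∀ (B B' : Set W) (δ δ' : W), B'.Finite → (∀ b ∈ B', b < δ') → δ' < δ₀ → δ ∈ B' →
      code B δ ≠ code B' δ' := by
    intro B B' δ δ' h1 h2 h3 h4 heq
    have e1 : N B δ = N B' δ' := (Prod.ext_iff.1 heq).1
    have e2 : trunc (r δ) (N B δ) = trunc (r δ') (N B' δ') := (Prod.ext_iff.1 heq).2
    rw [e1] at e2
    exact hN B' δ' h1 h2 h3 δ h4 e2
  let High : Vx W Ω → Prop := fun v => ∃ n, ∃ p ∈ v.F n, l p = l v.δ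
  let BH : Vx W Ω → Set W := fun v => {ξ | ∃ n, ξ ∈ v.F n ∧ l ξ < l v.δ}
  let M : Vx W Ω → Set ℕ := fun v => {n | ∃ p ∈ v.F n, Ladder p (h p) ∧ v.i ≤ lam p}
  let m : Vx W Ω → ℕ := fun v => sInf (M v)
  let m' : Vx W Ω → ℕ := fun v => if (M v).Nonempty then m v + 1 else 0
  let BL : Vx W Ω → Set W := fun v => {ξ | ∃ j ≤ m v, ξ ∈ v.F j}
  let sz : Vx W Ω → List ℕ := fun v => (List.range (m v + 1)).map (fun j => (v.F j).card)
  let col : Vx W Ω → Bool × ℕ × (List ℕ × ℕ) × (ℕ × List Bool) := fun v =>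
    if High v then (true, c (g (l v.δ)) v, ([], 0), code (BH v) v.δ)
    else (false, m' v, (sz v, e (lamS (v.F (m v))) v.i), code (BL v) v.δ)
  have key : ∀ v w, Good h v → Good h w → v.δ < δ₀ → w.δ < δ₀ → Edge v w → col v ≠ col w := by
    intro v w hv hw hv0 hw0 hE heq
    have hE0 := hE
    obtain ⟨hlt, ⟨k', hk'⟩, k, hagree, hsub⟩ := hE
    have hvw : v.δ < w.δ := hw.lt k' _ hk'
    by_cases hwH : High w
    · -- `w` is high
      have e2 : col w = (true, c (g (l w.δ)) w, ([], 0), code (BH w) w.δ) := if_pos hwH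
      by_cases hvH : High v
      · have e1 : col v = (true, c (g (l v.δ)) v, ([], 0), code (BH v) v.δ) := if_pos hvH
        rw [e1, e2] at heq
        simp only [Prod.mk.injEq] at heq
        rcases (hl_mono _ _ hvw.le hw0).lt_or_eq with h1 | h1
        · refine hcode (BH v) (BH w) v.δ w.δ ?_ ?_ hw0 ⟨k', hk', h1⟩ heq.2.2.2
          · obtain ⟨n, p, hp, hpl⟩ := hwH
            have hfin : (⋃ j ∈ Set.Iic n, (w.F j : Set W)).Finite :=
              (Set.finite_Iic n).biUnion (fun j _ => Finset.finite_toSet _)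
            refine hfin.subset ?_
            rintro ξ ⟨n', hn', hlt'⟩
            refine Set.mem_biUnion (x := n') ?_ hn'
            show n' ≤ n
            by_contra hcon
            have h2 : p < ξ := hw.mono n n' (not_le.1 hcon) p hp ξ hn'
            have h3 := hl_mono _ _ h2.le ((hw.lt n' ξ hn').trans hw0)
            rw [hpl] at h3
            exact absurd hlt' (not_lt.2 h3)
          · rintro ξ ⟨n', hn', -⟩
            exact hw.lt n' ξ hn'
        · have h2 : c (g (l v.δ)) v = c (g (l v.δ)) w := by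
            rw [heq.2.1, h1]
          refine hc (g (l v.δ)) (hg _) v w hv hw (hl _ hv0).1 ?_ hE0 h2
          rw [h1]
          exact (hl _ hw0).1
      · have e1 : col v = (false, m' v, (sz v, e (lamS (v.F (m v))) v.i), code (BL v) v.δ) :=
          if_neg hvH
        rw [e1, e2] at heq
        simp at heq
    · have e2 : col w = (false, m' w, (sz w, e (lamS (w.F (m w))) w.i), code (BL w) w.δ) :=
        if_neg hwH
      by_cases hvH : High v
      · have e1 : col v = (true, c (g (l v.δ)) v, ([], 0), code (BH v) v.δ) := if_pos hvH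
        rw [e1, e2] at heq
        simp at heq
      · have e1 : col v = (false, m' v, (sz v, e (lamS (v.F (m v))) v.i), code (BL v) v.δ) :=
          if_neg hvH
        rw [e1, e2] at heq
        simp only [Prod.mk.injEq, true_and] at heq
        -- a low vertex has small second coordinate
        have hlow : v.i ≤ lam v.δ := by
          by_contra hcon
          obtain ⟨n, p, hp, hn⟩ := hv.pass _ (not_le.1 hcon)
          refine hvH ⟨n, p, hp, le_antisymm (hl_mono _ _ (hv.lt n p hp).le hv0) ?_⟩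
          by_contra hcon2
          have h1 := (hlam v.δ hv0 hv.ladder _ (not_le.1 hcon2)).trans hn
          exact absurd (hl _ ((hv.lt n p hp).trans hv0)).1 (not_le.2 h1)
        have hkM : k' ∈ M w := ⟨v.δ, hk', hv.ladder, hlt.le.trans hlow⟩
        have hmk : m w ≤ k' := Nat.sInf_le hkM
        have hmM : m w ∈ M w := Nat.sInf_mem ⟨k', hkM⟩
        have hmw : m' w = m w + 1 := if_pos ⟨k', hkM⟩
        have hvM : (M v).Nonempty := by
          by_contra hcon
          have : m' v = 0 := if_neg hcon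
          rw [this, hmw] at heq
          exact absurd heq.1 (by omega)
        have hmv : m' v = m v + 1 := if_pos hvM
        have hmm : m v = m w := by
          have := heq.1
          omega
        have hvM' : m v ∈ M v := Nat.sInf_mem hvM
        rcases hmk.lt_or_eq with h1 | h1
        · -- the finite sets `v.F (m v)` and `w.F (m w)` agree
          have hFF : v.F (m v) = w.F (m w) := by
            rcases lt_or_ge (m w) k with h2 | h2
            · rw [hmm]
              exact hagree _ h2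
            · have hsub' : ∀ j, k ≤ j → j ≤ m w → w.F j ⊆ v.F k := by
                intro j hj1 hj2 p hp
                exact hsub j hj1 p hp (hw.mono j k' (lt_of_le_of_lt hj2 h1) p hp _ hk')
              have hcard : ∀ j ≤ m w, (v.F j).card = (w.F j).card := by
                intro j hj
                have h3 := heq.2.1.1
                have h4 : (List.range (m w + 1)).map (fun j => (v.F j).card) =
                    (List.range (m w + 1)).map (fun j => (w.F j).card) := by
                  have h5 : sz v = (List.range (m w + 1)).map (fun j => (v.F j).card) := by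
                    show (List.range (m v + 1)).map (fun j => (v.F j).card) = _
                    rw [hmm]
                  rw [← h5]
                  exact h3
                rw [List.map_inj_left] at h4
                exact h4 j (List.mem_range.2 (Nat.lt_succ_of_le hj))
              have hkk : w.F k = v.F k :=
                Finset.eq_of_subset_of_card_le (hsub' k le_rfl h2) (hcard k h2).le
              rcases h2.lt_or_eq with h3 | h3
              · exfalso
                obtain ⟨q, hq⟩ := hw.ne (k + 1)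
                have h4 := hsub' (k + 1) (Nat.le_succ k) h3 hq
                rw [← hkk] at h4
                exact lt_irrefl _ (hw.mono k (k + 1) (Nat.lt_succ_self k) q h4 q hq)
              · rw [hmm, ← h3]
                exact hkk.symm
          have h4 := heq.2.1.2
          rw [hFF] at h4
          obtain ⟨p, hp, -, hpi⟩ := hvM'
          obtain ⟨q, hq, -, hqi⟩ := hmM
          rw [hFF] at hp
          have h5 : v.i ≤ lamS (w.F (m w)) := hpi.trans (hlamS _ p hp)
          have h6 : w.i ≤ lamS (w.F (m w)) := hqi.trans (hlamS _ q hq)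
          exact hlt.ne' (he _ _ h5 _ h6 h4)
        · refine hcode (BL v) (BL w) v.δ w.δ ?_ ?_ hw0 ⟨k', h1.ge, hk'⟩ heq.2.2
          · have hfin : (⋃ j ∈ Set.Iic (m w), (w.F j : Set W)).Finite :=
              (Set.finite_Iic (m w)).biUnion (fun j _ => Finset.finite_toSet _)
            refine hfin.subset ?_
            rintro ξ ⟨n', hn', hx⟩
            exact Set.mem_biUnion (x := n') hn' hx
          · rintro ξ ⟨n', -, hn'⟩
            exact hw.lt n' ξ hn'
  obtain ⟨f, hf⟩ := exists_injective_nat (Bool × ℕ × (List ℕ × ℕ) × (ℕ × List Bool))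
  exact ⟨fun v => f (col v), fun v w hv hw hv0 hw0 hE heq => key v w hv hw hv0 hw0 hE (hf heq)⟩

omit [LinearOrder Ω] [WellFoundedLT Ω] in
/-- An initial segment is enumerated by `Ω`. -/
theorem exists_enum (hW : Reg (#Ω) W) (δ : W) (hδ : ∃ ξ, ξ < δ) :
    ∃ g : Ω → W, (∀ j, g j < δ) ∧ ∀ ξ < δ, ∃ j, g j = ξ := by
  have h1 : #(Set.Iio δ) ≤ #Ω :=
    (Cardinal.mk_le_mk_of_subset Set.Iio_subset_Iic_self).trans (hW.iic δ)
  obtain ⟨f⟩ := (Cardinal.le_def _ _).1 h1
  obtain ⟨ξ₀, hξ₀⟩ := hδ
  have : Nonempty (Set.Iio δ) := ⟨⟨ξ₀, hξ₀⟩⟩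
  refine ⟨fun j => (Function.invFun f j).1, fun j => (Function.invFun f j).2, fun ξ hξ => ?_⟩
  refine ⟨f ⟨ξ, hξ⟩, ?_⟩
  show (Function.invFun f (f ⟨ξ, hξ⟩)).1 = ξ
  rw [Function.leftInverse_invFun f.injective]

/-- **Compactness**: the vertices with `δ ≤ γ` span a countably chromatic graph. -/
theorem compact [WellFoundedLT W] (hW : Reg (#Ω) W) (hΩ : Reg ℵ₀ Ω) (r₀ : Ω → ℕ → Bool)
    (hr₀ : Function.Injective r₀) (h : W → Ω → W) (γ : W) :
    ∃ c : Vx W Ω → ℕ, ∀ v w, Good h v → Good h w → v.δ ≤ γ → w.δ ≤ γ → Edge v w → c v ≠ c w := by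
  classical
  induction γ using WellFoundedLT.induction with
  | ind γ ih =>
    have hlt : ∀ v w : Vx W Ω, Good h w → Edge v w → v.δ < w.δ := by
      rintro v w hw ⟨-, ⟨k, hk⟩, -⟩
      exact hw.lt k _ hk
    by_cases hγ : ∃ ξ, ξ < γ
    · obtain ⟨g, hg, hg'⟩ := exists_enum hW γ hγ
      obtain ⟨c, hc⟩ := compact_step hΩ r₀ hr₀ h γ g hg hg' ih
      refine ⟨fun v => if v.δ = γ then 0 else c v + 1, fun v w hv hw hvγ hwγ hE => ?_⟩
      have h1 := hlt v w hw hE
      have h2 : v.δ < γ := lt_of_lt_of_le h1 hwγ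
      have e1 : (if v.δ = γ then 0 else c v + 1) = c v + 1 := if_neg h2.ne
      show (if v.δ = γ then 0 else c v + 1) ≠ (if w.δ = γ then 0 else c w + 1)
      rw [e1]
      by_cases hw' : w.δ = γ
      · rw [if_pos hw']
        omega
      · rw [if_neg hw']
        intro heq
        exact hc v w hv hw h2 (lt_of_le_of_ne hwγ hw') hE (by omega)
    · refine ⟨fun _ => 0, fun v w hv hw hvγ hwγ hE => ?_⟩
      exact absurd ⟨v.δ, lt_of_lt_of_le (hlt v w hw hE) hwγ⟩ hγ

end Pool.Agent.Lib.IncompactB
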