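import Pool.Agent.Lib.IncompactB.Compact

/-!
# The graph on the triples `(δ, i, F)` is not countably chromatic

The sequences `F` of finite subsets of `δ` are only taken from the sequences coded by a family `𝓕` of
sequences of finite subsets of `Ω`.  The family is required to be *hitting*: for every function `E`
from finite sequences of finite sets to finite sets there is `F ∈ 𝓕` such that
`E (F 0, …, F (k - 1)) ⊆ F k` for infinitely many `k`.
-/

open Cardinal Set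

namespace Pool.Agent.Lib.IncompactB

variable {W Ω : Type} [LinearOrder W] [LinearOrder Ω]

/-- A family of sequences of finite sets which is hitting. -/
def Hitting (𝓕 : Set (ℕ → Finset Ω)) : Prop :=
  ∀ E : List (Finset Ω) → Finset Ω, ∃ F ∈ 𝓕, ∃ᶠ k in Filter.atTop, E (res F k) ⊆ F k

/-- The choices made in the construction: ladders `h`, a function `u` above in `δ`, enumerations `g`
of the initial segments of `W`, an element `j₀` of `Ω`. -/
structure Choices (W Ω : Type) [LinearOrder W] [LinearOrder Ω] where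
  h : W → Ω → W
  u : W → W → W
  g : W → Ω → W
  j₀ : Ω
  hh : ∀ δ, (∃ h', Ladder (Ω := Ω) δ h') → Ladder δ (h δ)
  hu : ∀ δ, Ladder δ (h δ) → ∀ ξ < δ, ξ < u δ ξ ∧ u δ ξ < δ
  hg : ∀ δ, (∃ ξ, ξ < δ) → (∀ j, g δ j < δ) ∧ ∀ ξ < δ, ∃ j, g δ j = ξ

theorem exists_choices (hW : Reg (#Ω) W) (hΩ : Reg ℵ₀ Ω) : Nonempty (Choices W Ω) := by
  classical
  have h1 : ∀ δ : W, ∃ h : Ω → W, (∃ h', Ladder (Ω := Ω) δ h') → Ladder δ h := by
    intro δ
    by_cases h : ∃ h', Ladder (Ω := Ω) δ h'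
    · obtain ⟨h', hh'⟩ := h
      exact ⟨h', fun _ => hh'⟩
    · exact ⟨fun _ => δ, fun h' => absurd h' h⟩
  choose h hh using h1
  have h2 : ∀ δ ξ : W, ∃ b, Ladder δ (h δ) → ξ < δ → ξ < b ∧ b < δ := by
    intro δ ξ
    by_cases hL : Ladder δ (h δ) ∧ ξ < δ
    · obtain ⟨j, hj⟩ := hL.1.2.2 ξ hL.2
      exact ⟨h δ j, fun _ _ => ⟨hj, hL.1.2.1 j⟩⟩
    · exact ⟨δ, fun h' h'' => absurd ⟨h', h''⟩ hL⟩
  choose u hu using h2
  have h3 : ∀ δ : W, ∃ g : Ω → W, (∃ ξ, ξ < δ) → (∀ j, g j < δ) ∧ ∀ ξ < δ, ∃ j, g j = ξ := by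
    intro δ
    by_cases hδ : ∃ ξ, ξ < δ
    · obtain ⟨g, hg⟩ := exists_enum hW δ hδ
      exact ⟨g, fun _ => hg⟩
    · exact ⟨fun _ => δ, fun h' => absurd h' hδ⟩
  choose g hg using h3
  obtain ⟨b, -⟩ := hΩ.bdd Empty (fun e => e.elim) (by simp)
  exact ⟨⟨h, u, g, b, hh, fun δ hL ξ hξ => hu δ ξ hL hξ, hg⟩⟩

/-! ### Blocks -/

/-- The block above `t` coded by `s`. -/
def blkOf (C : Choices W Ω) (δ t : W) (s : Finset Ω) : Finset W :=
  insert (C.u δ t) ((s.image (C.g δ)).filter (fun p => t < p))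

/-- The largest point of the blocks before the `k`-th. -/
def tp (C : Choices W Ω) (δ : W) (F : ℕ → Finset Ω) : ℕ → W
  | 0 => C.g δ C.j₀
  | k + 1 => (insert (tp C δ F k) (blkOf C δ (tp C δ F k) (F k))).max' (Finset.insert_nonempty _ _)

/-- The `k`-th block. -/
def blk (C : Choices W Ω) (δ : W) (F : ℕ → Finset Ω) (k : ℕ) : Finset W :=
  blkOf C δ (tp C δ F k) (F k)

section blocks

variable (C : Choices W Ω) (δ : W) (hL : Ladder δ (C.h δ)) (F : ℕ → Finset Ω)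

include hL

theorem tp_lt (hg : ∀ j, C.g δ j < δ) (k : ℕ) : tp C δ F k < δ := by
  induction k with
  | zero => exact hg _
  | succ k ih =>
    rw [tp, Finset.max'_lt_iff]
    intro p hp
    rw [Finset.mem_insert, blkOf, Finset.mem_insert, Finset.mem_filter, Finset.mem_image] at hp
    rcases hp with rfl | rfl | ⟨⟨j, -, rfl⟩, -⟩
    · exact ih
    · exact (C.hu δ hL _ ih).2
    · exact hg j

theorem blk_lt (hg : ∀ j, C.g δ j < δ) (k : ℕ) (p : W) (hp : p ∈ blk C δ F k) : p < δ := by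
  rw [blk, blkOf, Finset.mem_insert, Finset.mem_filter, Finset.mem_image] at hp
  rcases hp with rfl | ⟨⟨j, -, rfl⟩, -⟩
  · exact (C.hu δ hL _ (tp_lt C δ hL F hg k)).2
  · exact hg j

theorem lt_blk (hg : ∀ j, C.g δ j < δ) (k : ℕ) (p : W) (hp : p ∈ blk C δ F k) :
    tp C δ F k < p := by
  rw [blk, blkOf, Finset.mem_insert, Finset.mem_filter] at hp
  rcases hp with rfl | hp
  · exact (C.hu δ hL _ (tp_lt C δ hL F hg k)).1
  · exact hp.2

omit hL in
theorem blk_ne (k : ℕ) : (blk C δ F k).Nonempty := ⟨C.u δ (tp C δ F k), Finset.mem_insert_self _ _⟩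

omit hL in
theorem blk_le (k : ℕ) (p : W) (hp : p ∈ blk C δ F k) : p ≤ tp C δ F (k + 1) := by
  rw [tp]
  exact Finset.le_max' _ _ (Finset.mem_insert_of_mem hp)

theorem tp_mem (hg : ∀ j, C.g δ j < δ) (k : ℕ) : tp C δ F (k + 1) ∈ blk C δ F k := by
  have h1 : tp C δ F (k + 1) ∈ insert (tp C δ F k) (blk C δ F k) := by
    rw [tp]
    exact Finset.max'_mem _ _
  rcases Finset.mem_insert.1 h1 with h2 | h2
  · exfalso
    have h3 : C.u δ (tp C δ F k) ∈ blk C δ F k := Finset.mem_insert_self _ _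
    have h4 := (lt_blk C δ hL F hg k _ h3).trans_le (blk_le C δ F k _ h3)
    rw [h2] at h4
    exact lt_irrefl _ h4
  · exact h2

theorem tp_mono (hg : ∀ j, C.g δ j < δ) : Monotone (tp C δ F) := by
  refine monotone_nat_of_le_succ (fun k => ?_)
  exact (lt_blk C δ hL F hg k _ (tp_mem C δ hL F hg k)).le

theorem blk_mono (hg : ∀ j, C.g δ j < δ) (k k' : ℕ) (hk : k < k') (p : W) (hp : p ∈ blk C δ F k)
    (q : W) (hq : q ∈ blk C δ F k') : p < q :=
  ((blk_le C δ F k p hp).trans (tp_mono C δ hL F hg hk)).trans_lt (lt_blk C δ hL F hg k' q hq)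

omit hL in
theorem tp_congr {F' : ℕ → Finset Ω} (k : ℕ) (h : ∀ m < k, F m = F' m) :
    tp C δ F k = tp C δ F' k := by
  induction k with
  | zero => rfl
  | succ k ih =>
    simp only [tp, ih (fun m hm => h m (by omega)), h k (Nat.lt_succ_self k)]

omit hL in
theorem blk_congr {F' : ℕ → Finset Ω} (k : ℕ) (h : ∀ m ≤ k, F m = F' m) :
    blk C δ F k = blk C δ F' k := by
  rw [blk, blk, tp_congr C δ F (F' := F') k (fun m hm => h m hm.le), h k le_rfl]

end blocks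

/-- The triple given by `δ`, `i` and a sequence of finite subsets of `Ω`. -/
def Choices.vx (C : Choices W Ω) {𝓕 : Set (ℕ → Finset Ω)} (p : W × Ω × 𝓕) : Vx W Ω :=
  ⟨p.1, p.2.1, blk C p.1 p.2.2.1⟩

section

variable [WellFoundedLT W] [WellFoundedLT Ω] (C : Choices W Ω) {𝓕 : Set (ℕ → Finset Ω)}
  (c : W × Ω × 𝓕 → ℕ)

/-- `q` is a vertex of colour `n` whose sequence starts with `t` and whose union contains `δ`. -/
def Wit (t : List (Finset W)) (n : ℕ) (δ : W) (q : W × Ω × 𝓕) : Prop :=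
  Good C.h (C.vx q) ∧ (∃ m, res (C.vx q).F m = t) ∧ (∃ k, δ ∈ (C.vx q).F k) ∧ c q = n

/-- There is no such vertex. -/
def Dead (t : List (Finset W)) (n : ℕ) (δ : W) : Prop := ¬ ∃ q, Wit C c t n δ q

/-- **Uncountability.** -/
theorem uncountable (hW : Reg (#Ω) W) (hΩ : Reg ℵ₀ Ω) (h𝓕 : Hitting 𝓕)
    (hc : ∀ p q, Good C.h (C.vx p) → Good C.h (C.vx q) → Edge (C.vx p) (C.vx q) → c p ≠ c q) :
    False := by
  classical
  -- instances
  have hneΩ : Nonempty Ω := ⟨C.j₀⟩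
  have hnm : NoMaxOrder Ω := ⟨fun x => by
    obtain ⟨b, hb⟩ := hΩ.bdd Unit (fun _ => x) (by simp)
    exact ⟨b, hb ()⟩⟩
  -- the point `δ`
  have hG : ∀ (t : List (Finset W)) (n : ℕ) (ξ : W), ∃ b, (∃ δ', ξ < δ' ∧ Dead C c t n δ') →
      ξ < b ∧ Dead C c t n b := by
    intro t n ξ
    by_cases h : ∃ δ', ξ < δ' ∧ Dead C c t n δ'
    · obtain ⟨δ', hδ'⟩ := h
      exact ⟨δ', fun _ => hδ'⟩
    · exact ⟨ξ, fun h' => absurd h' h⟩
  choose G hG using hG
  obtain ⟨h', δ, hL1, hL2, hL3, hGδ⟩ := hW.closure_pt (I := Ω) le_rfl G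
  have hL : Ladder δ (C.h δ) := C.hh δ ⟨h', hL1, hL2, hL3⟩
  have hδne : ∃ ξ, ξ < δ := ⟨_, hL2 (Classical.arbitrary Ω)⟩
  obtain ⟨hg1, hg2⟩ := C.hg δ hδne
  choose! s hs using hg2
  have hu := C.hu δ hL
  -- the finite sets of responses
  have hR : ∀ (t : List (Finset W)) (n : ℕ) (ξ : W), ∃ R : Finset W,
      (Dead C c t n δ → G t n ξ ∈ R) ∧
      (¬ Dead C c t n δ → ∃ q, Wit C c t n δ q ∧
        (∀ m, ∀ p ∈ (C.vx q).F m, p < δ → p ∈ R) ∧ C.u δ (C.h δ (C.vx q).i) ∈ R) := by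
    intro t n ξ
    by_cases hD : Dead C c t n δ
    · exact ⟨{G t n ξ}, fun _ => Finset.mem_singleton_self _, fun h => absurd hD h⟩
    · obtain ⟨q, hq⟩ := not_not.1 hD
      obtain ⟨k, hk⟩ := hq.2.2.1
      refine ⟨insert (C.u δ (C.h δ (C.vx q).i))
        ((Finset.range (k + 1)).biUnion (fun m => (C.vx q).F m)), fun h => absurd h hD,
        fun _ => ⟨q, hq, fun m p hp hpδ => ?_, Finset.mem_insert_self _ _⟩⟩
      refine Finset.mem_insert_of_mem (Finset.mem_biUnion.2 ⟨m, ?_, hp⟩)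
      rw [Finset.mem_range]
      by_contra hcon
      exact lt_asymm hpδ (hq.1.mono k m (by omega) δ hk p hp)
  choose R hR1 hR2 using hR
  -- the function to be hit
  let E : List (Finset Ω) → Finset Ω := fun σ =>
    (Finset.range (σ.length + 1)).biUnion (fun n =>
      (R (res (blk C δ (fun k => σ.getD k ∅)) σ.length) n
        (tp C δ (fun k => σ.getD k ∅) σ.length)).image s)
  obtain ⟨F, hF, hhit⟩ := h𝓕 E
  have hE : ∀ (k n : ℕ), n ≤ k → E (res F k) ⊆ F k →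
      ∀ p ∈ R (res (blk C δ F) k) n (tp C δ F k), p < δ → tp C δ F k < p → p ∈ blk C δ F k := by
    intro k n hnk hsub p hp hpδ htp
    have h1 : s p ∈ E (res F k) := by
      have hlen : (res F k).length = k := res_length F k
      refine Finset.mem_biUnion.2 ⟨n, ?_, Finset.mem_image.2 ⟨p, ?_, rfl⟩⟩
      · rw [hlen, Finset.mem_range]
        omega
      · rw [hlen]
        have h2 : ∀ m < k, (fun k' => (res F k).getD k' ∅) m = F m := fun m hm =>
          res_getD F k m ∅ hm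
        have h3 : res (blk C δ (fun k' => (res F k).getD k' ∅)) k = res (blk C δ F) k :=
          res_eq.2 (fun m hm => blk_congr C δ _ m (fun m' hm' => h2 m' (lt_of_le_of_lt hm' hm)))
        have h4 : tp C δ (fun k' => (res F k).getD k' ∅) k = tp C δ F k :=
          tp_congr C δ _ k h2
        rw [h3, h4]
        exact hp
    have h2 : p ∈ (F k).image (C.g δ) := Finset.mem_image.2 ⟨s p, hsub h1, hs p hpδ⟩
    exact Finset.mem_insert_of_mem (Finset.mem_filter.2 ⟨h2, htp⟩)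
  -- the coordinate `i`
  have hi0 : ∃ i, ∀ k, ∀ p ∈ blk C δ F k, p ≤ C.h δ i := by
    have h1 : ∀ k, ∃ j, tp C δ F k < C.h δ j := fun k => hL.2.2 _ (tp_lt C δ hL F hg1 k)
    choose j hj using h1
    obtain ⟨i, hi⟩ := hΩ.bdd ℕ j (by simp)
    exact ⟨i, fun k p hp => (blk_le C δ F k p hp).trans
      ((hj (k + 1)).trans (hL.1 (hi (k + 1)))).le⟩
  let wf : WellFounded (fun i j : Ω => i < j) := wellFounded_lt
  let i := wf.min {i | ∀ k, ∀ p ∈ blk C δ F k, p ≤ C.h δ i} hi0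
  have hi1 : ∀ k, ∀ p ∈ blk C δ F k, p ≤ C.h δ i :=
    wf.min_mem {i | ∀ k, ∀ p ∈ blk C δ F k, p ≤ C.h δ i} hi0
  have hi2 : ∀ j < i, ∃ k, ∃ p ∈ blk C δ F k, C.h δ j < p := by
    intro j hj
    by_contra hcon
    push Not at hcon
    exact wf.not_lt_min {i | ∀ k, ∀ p ∈ blk C δ F k, p ≤ C.h δ i} hcon hj
  -- the vertex
  have hgood : Good C.h (C.vx (δ, i, (⟨F, hF⟩ : 𝓕))) :=
    ⟨hL, fun k => blk_ne C δ F k,
      fun k k' hk p hp q hq => blk_mono C δ hL F hg1 k k' hk p hp q hq,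
      fun k p hp => blk_lt C δ hL F hg1 k p hp, hi2⟩
  obtain ⟨k, hk, hsub⟩ := (Filter.frequently_atTop.1 hhit) (c (δ, i, (⟨F, hF⟩ : 𝓕)) + 1)
  have hE' := hE k (c (δ, i, (⟨F, hF⟩ : 𝓕))) (by omega) hsub
  by_cases hD : Dead C c (res (blk C δ F) k) (c (δ, i, (⟨F, hF⟩ : 𝓕))) δ
  · -- a dead point in the block
    have h1 := hG _ _ (tp C δ F k) ⟨δ, tp_lt C δ hL F hg1 k, hD⟩
    have h2 : G (res (blk C δ F) k) (c (δ, i, (⟨F, hF⟩ : 𝓕))) (tp C δ F k) < δ := by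
      refine hGδ _ _ _ (fun s' hs' a ha => ?_) (tp_lt C δ hL F hg1 k)
      obtain ⟨m, -, rfl⟩ := mem_res.1 hs'
      exact blk_lt C δ hL F hg1 m a ha
    have h3 := hE' _ (hR1 _ _ (tp C δ F k) hD) h2 h1.1
    exact h1.2 ⟨(δ, i, ⟨F, hF⟩), hgood, ⟨k, rfl⟩, ⟨k, h3⟩, rfl⟩
  · -- a witness for `δ`
    obtain ⟨q, ⟨hqgood, ⟨m, hm⟩, ⟨k', hk'⟩, hcq⟩, hq1, hq2⟩ := hR2 _ _ (tp C δ F k) hD
    obtain ⟨hmk, hagree⟩ := res_eq' hm
    subst hmk
    refine hc (δ, i, ⟨F, hF⟩) q hgood hqgood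
      ⟨?_, ⟨k', hk'⟩, m, fun m' hm' => (hagree m' hm').symm, fun m' hm' p hp hpδ => ?_⟩ hcq.symm
    · -- the second coordinates
      have h1 : C.h δ (C.vx q).i < C.h δ i := by
        have h2 := hu _ (hL.2.1 (C.vx q).i)
        rcases lt_or_ge (tp C δ F m) (C.u δ (C.h δ (C.vx q).i)) with h3 | h3
        · exact h2.1.trans_le (hi1 m _ (hE' _ hq2 h2.2 h3))
        · obtain ⟨p, hp⟩ := blk_ne C δ F m
          exact ((h2.1.trans_le h3).trans (lt_blk C δ hL F hg1 m p hp)).trans_le (hi1 m p hp)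
      exact hL.1.lt_iff_lt.1 h1
    · -- the points below `δ`
      refine hE' p (hq1 m' p hp hpδ) hpδ ?_
      obtain ⟨m₀, rfl⟩ : ∃ m₀, m = m₀ + 1 := ⟨m - 1, by omega⟩
      have h1 : tp C δ F (m₀ + 1) ∈ (C.vx q).F m₀ := by
        rw [hagree m₀ (Nat.lt_succ_self _)]
        exact tp_mem C δ hL F hg1 m₀
      exact hqgood.mono m₀ m' (by omega) _ h1 p hp

end

end Pool.Agent.Lib.IncompactB
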